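import Pool.Agent.Lib.MP_13b5a2_al.Main

/-! Values of the gamma invariant strictly between one and two. -/

universe u

open Pool.Agent.Lib.MP_13b5a2_al

/-- If `1 < γ_G(M) < 2`, then `γ_G(M) = 2 cos (π / n)` for exactly one integer `n ≥ 4`, and this
integer is a power of the characteristic. -/
theorem Pool.Agent.Results.MP_13b5a2_al.GammaValues.result {k : Type u} {G : Type} [Field k]
    [Group G] [Finite G] (p : ℕ) (hp : p.Prime) [CharP k p] (M : FDRep k G)
    (h1 : 1 < gamma M) (h2 : gamma M < 2) :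
    ∃ r : ℕ, 4 ≤ p ^ r ∧
      ∀ n : ℕ, 4 ≤ n → (gamma M = 2 * Real.cos (Real.pi / (n : ℝ)) ↔ n = p ^ r) := by
  have := Fact.mk hp
  obtain ⟨r, e⟩ := gamma_eq_cos (p := p) M h1 h2
  rw [← Nat.cast_pow] at e
  have h3 : 0 < p ^ r := pow_pos hp.pos r
  refine ⟨r, four_le_of_one_lt h3 (e ▸ h1), fun n hn => ⟨fun e' => ?_, fun e' => e' ▸ e⟩⟩
  exact eq_of_cos_eq (by omega) h3 (e'.symm.trans e)
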