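import Pool.Agent.Lib.MP_13b5a2_al.H64Gap

/-! The gap above one in the values of the gamma invariant grows with the rank. -/

universe u

open Pool.Agent.Lib.MP_13b5a2_al

/-- If `p ≥ 5` and `G` contains an elementary abelian subgroup of order `p ^ r`, then no module has
`1 < γ_G(M) < 2 cos (π / p ^ r)`. -/
theorem Pool.Agent.Results.MP_13b5a2_al.RankGap.result {k : Type u} {G : Type} [Field k]
    [Group G] [Finite G] (p : ℕ) (hp : p.Prime) (h5 : 5 ≤ p) [CharP k p] (r : ℕ)
    (φ : (Fin r → Multiplicative (ZMod p)) →* G) (hφ : Function.Injective φ) (M : FDRep k G)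
    (h1 : 1 < gamma M) : 2 * Real.cos (Real.pi / (p : ℝ) ^ r) ≤ gamma M := by
  have := Fact.mk hp
  exact g64_gap h5 φ hφ M h1
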